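import Mathlib
import Pool.Agent.Lib.MP_18eb12_gt.H19Final
import Pool.Agent.Lib.MP_18eb12_gt.H19Scale

set_option autoImplicit false

namespace Pool.Agent.Results.MP_18eb12_gt.AllEven

open Pool.Agent.Lib.MP_18eb12_gt
open scoped Manifold ContDiff

/-- Disproof of Q1 in every even dimension n ≥ 6. With k = n/2 - 2, the natural scalar
S = Δ^k |Ric|^2 has weight -n, S dv has conformally invariant integral on every closed n-manifold,
and on no nonempty closed n-manifold is it of the form c Q + L + G with Q a natural form obeying the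
conformal transformation law of Q-curvature, L a local conformal invariant and G a natural form with
a local conformal primitive F. -/
theorem result (n : ℕ) (hn : Even n) (h6 : 6 ≤ n) :
    IsNatural n 0 (lapPowRicciSq (n / 2 - 2)) ∧
    (∀ (t : ℝ), t ≠ 0 → ∀ (g : Met n) (y : E n) (I : Fin 0 → Fin n),
      t ^ n * lapPowRicciSq (n / 2 - 2) (fun z => t ^ 2 • g z) y I
        = lapPowRicciSq (n / 2 - 2) g y I) ∧
    ∀ (M : Type) [TopologicalSpace M] [T2Space M] [CompactSpace M] [ChartedSpace (E n) M]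
      [IsManifold 𝓘(ℝ, E n) ∞ M] [MeasurableSpace M] [BorelSpace M],
      ConfInvIntegral vol (onM (n := n) (M := M) (lapPowRicciSq (n / 2 - 2))) ∧
      (Nonempty M → ∀ (c : ℝ) (Q L G F : Met n → Ten n 0),
        IsNatural n 0 Q → IsNatural n 0 L → IsNatural n 0 G → IsNatural n 0 F →
        QLaw n (onM (M := M) Q) → LocalConfInv n (onM (M := M) L) →
        IsPrimitive vol (onM (M := M) F) (onM G) →
        ¬ ∀ (g : RMetric (E n) M) (x : M),
          onM (lapPowRicciSq (n / 2 - 2)) g x = c * onM Q g x + onM L g x + onM G g x) := by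
  obtain ⟨r, hr⟩ := hn
  obtain ⟨m, hm⟩ : ∃ m, n / 2 - 2 = m + 1 := ⟨n / 2 - 3, by omega⟩
  have hn' : n = 2 * (m + 1) + 4 := by omega
  rw [hm]
  refine ⟨isNatural_lapPow _, fun t ht g y I => lapPow_weight hn' ht g y I,
    fun M _ _ _ _ _ _ _ => ⟨confInv_lapPow m, ?_⟩⟩
  intro _ c Q L G F hQ hL _ _ hQl hLl hF
  exact no_decomposition_n hn' c (onM F) hQ hL hQl hLl hF

end Pool.Agent.Results.MP_18eb12_gt.AllEven
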